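import Pool.Agent.Helper46.LD4.A5
import Pool.Agent.Helper44.LD4.A1
import Pool.Agent.Helper17.LD4.Sys

/-!
# Project LD4, block STA: start of a stage, the sums on a good window
-/

set_option autoImplicit false

namespace Pool.Agent.Helper46.LD4

open Set MeasureTheory Filter Topology
open Pool.Agent.Helper41.LD (av var haar DiscLe Dioph Kk)
open Pool.Agent.Helper41.LD2 (EqA)
open Pool.Agent.Helper41.LD3 (Cst Us tm fr lamG lamG_pos lamG_mul_le)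
open Pool.Agent.Helper41.LD4
open Pool.Agent.Helper44.LD4 (sum_sub_M)
open Pool.Agent.Helper17.LD4 (GG_Wd GG_NB PP_nums)

variable {κ : ℕ} {τ : ℕ → ℝ} {ty : ℕ → ℕ × ℕ × ℕ} {g Q R CF DF Cb m Cq G K : ℕ}

/-- the constant of the windows -/
theorem w_Cb_le (H : Cst4 τ ty g Q R CF DF Cb m Cq G) {h : ℕ} (hh : h < g) {v : ℝ} (hv : v ≤ 1) :
    3 * (m : ℝ) ^ 2 * v * (τ h ^ Q / (τ h ^ Q - 1)) ≤ ((Cb * (3 * m ^ 2) : ℕ) : ℝ) := by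
  have h1 := H.base.hCb h hh
  have h2 : 1 < τ h ^ Q := one_lt_pow₀ (H.base.hτ h hh) (by have := H.base.hQ; omega)
  have h3 : 0 ≤ τ h ^ Q / (τ h ^ Q - 1) := div_nonneg (by linarith) (by linarith)
  push_cast
  calc 3 * (m : ℝ) ^ 2 * v * (τ h ^ Q / (τ h ^ Q - 1)) ≤ 3 * (m : ℝ) ^ 2 * 1 * Cb := by gcongr
    _ = Cb * (3 * (m : ℝ) ^ 2) := by ring

theorem Cb_le_G (H : Cst4 τ ty g Q R CF DF Cb m Cq G) : Cb * (3 * m ^ 2) ≤ G := by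
  refine le_trans ?_ H.hG4
  have hg := H.base.hg
  have hQ := H.base.hQ
  have hCb := H.base.hCb1
  have hCF := H.base.hCF1
  have hm := H.m1
  have h1 : Cb ≤ g * Q * Cb ^ 2 * CF := by
    calc Cb ≤ Cb ^ 2 := Nat.le_self_pow two_ne_zero _
      _ ≤ g * Q * Cb ^ 2 := Nat.le_mul_of_pos_left _ (Nat.mul_pos hg hQ)
      _ ≤ _ := Nat.le_mul_of_pos_right _ hCF
  have h2 : 3 * m ^ 2 ≤ 9 * m ^ 5 := by
    have h3 : m ^ 2 ≤ m ^ 5 := Nat.pow_le_pow_right hm (by norm_num)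
    omega
  exact Nat.mul_le_mul h1 h2

/-- the start of a stage: every window is good -/
theorem stage_start4 (H : Cst4 τ ty g Q R CF DF Cb m Cq G) (B : Big4 κ τ ty g Q R DF Cb m Cq G K) (c : ℝ → ℝ) {ℓst a : ℝ} (hℓ : 0 < ℓst) :
    GoodF4 τ ty c g Q R G κ ℓst K a ℓst := by
  obtain ⟨hL1, hRL, hKL⟩ := B.Lam
  obtain ⟨hmG, hCFG, hCbG, hG1, hG9⟩ := H.G_ge
  have hK2 := B.hK2
  have hK1 : 1 ≤ K := by omega
  have hKr : (1 : ℝ) ≤ K := by exact_mod_cast hK1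
  have hGr : (1 : ℝ) ≤ G := by exact_mod_cast hG1
  have hΛr : (1 : ℝ) ≤ (K : ℝ) ^ (2 * κ + 1) := one_le_pow₀ hKr
  refine ⟨fun s hs j hj => ?_, ?_⟩
  · rw [Nat.sub_self] at hj
    omega
  obtain ⟨-, hcard, -, hP⟩ := PP_nums H hK1
  have hlam := lamG_pos hG1 hK1 hΛr
  have h1 : ∀ p ∈ PP ty g Q K, Pot (GG τ ty c Q ℓst p) (tm τ Q p.1 ℓst - tm τ Q p.1 ℓst) (R * K) (lamG G K ((K : ℝ) ^ (2 * κ + 1))) a ℓst ≤ 2 := by
    intro p hp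
    obtain ⟨hs, hv0, hv1, -⟩ := hP p hp
    have hv : 0 ≤ sysv (ty (p.1 / Q)).2.1 p.2 := le_trans (by positivity) hv0
    have hw := GG_Wd H c hK1 (a := a) hℓ le_rfl hp
    rw [Nat.sub_self] at hw ⊢
    refine pot_start hw hlam.le (lamG_mul_le hG1 hK1 hΛr ?_)
    have h2 := w_Cb_le H (Cst.idx_lt hs) hv1
    have h3 : ((Cb * (3 * m ^ 2) : ℕ) : ℝ) ≤ G := by exact_mod_cast Cb_le_G H
    have h4 : (G : ℝ) * 1 ≤ G * (K * (K : ℝ) ^ (2 * κ + 1)) :=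
      mul_le_mul_of_nonneg_left (one_le_mul_of_one_le_of_one_le hKr hΛr) (by linarith)
    have h5 : 4096 * (G : ℝ) * K * (K : ℝ) ^ (2 * κ + 1) = 4096 * (G * (K * (K : ℝ) ^ (2 * κ + 1))) := by ring
    rw [h5]
    linarith
  refine (Finset.sum_le_sum h1).trans ?_
  rw [Finset.sum_const, nsmul_eq_mul]
  have h2 : (g : ℝ) * Q * m * 2 ≤ 2 ^ K := by
    have h3 : g * Q * m * 2 ≤ 2 ^ K := by
      have h4 : 8192 * G * K * K ^ (2 * κ + 1) ≤ 2 ^ K := B.hbig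
      have h5 : G ≤ 8192 * G * K * K ^ (2 * κ + 1) := by
        calc G = G * 1 := (mul_one G).symm
          _ ≤ G * (8192 * (K * K ^ (2 * κ + 1))) := by
              refine Nat.mul_le_mul_left _ ?_
              have : 1 ≤ K * K ^ (2 * κ + 1) := Nat.mul_pos hK1 hL1
              omega
          _ = 8192 * G * K * K ^ (2 * κ + 1) := by ring
      have h6 : g * Q * m * 2 ≤ g * Q * (9 * m ^ 5) := by
        rw [mul_assoc (g * Q)]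
        refine Nat.mul_le_mul_left _ ?_
        have h7 : m ≤ m ^ 5 := Nat.le_self_pow (by norm_num) m
        omega
      exact h6.trans (hG9.trans (h5.trans h4))
    exact_mod_cast h3
  calc ((PP ty g Q K).card : ℝ) * 2 ≤ (g * Q * m * 2 ^ K) * 2 := mul_le_mul_of_nonneg_right hcard (by norm_num)
    _ = g * Q * m * 2 * 2 ^ K := by ring
    _ ≤ 2 ^ K * 2 ^ K := mul_le_mul_of_nonneg_right h2 (by positivity)
    _ = 4 ^ K := by rw [← mul_pow]; norm_num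
    _ ≤ 16 ^ K := pow_le_pow_left₀ (by norm_num) (by norm_num) K

/-- the sums of the test functions on a good window -/
theorem stage_sums4 (H : Cst4 τ ty g Q R CF DF Cb m Cq G) (B : Big4 κ τ ty g Q R DF Cb m Cq G K) (c : ℝ → ℝ) {ℓst ℓ a : ℝ} (hℓ : 0 < ℓ) (hst : ℓ ≤ ℓst)
    (hgood : GoodF4 τ ty c g Q R G κ ℓst K a ℓ) {x : ℝ} (hx : x ∈ Icc a (a + ℓ)) {s : ℕ} (hs : s < g * Q)
    {q : ℕ × ℕ × ℕ × ℕ} (hq : q ∈ sysI (ty (s / Q)).2.1 K) :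
    |∑ j ∈ Finset.range (tm τ Q s ℓ - tm τ Q s ℓst), sysf (ty (s / Q)).2.1 q (Us τ c Q ℓst s j x)| ≤ 33000 * G * (K : ℝ) ^ (2 * κ + 3) := by
  obtain ⟨hL1, hRL, hKL⟩ := B.Lam
  obtain ⟨hmG, hCFG, hCbG, hG1, hG9⟩ := H.G_ge
  have hK2 := B.hK2
  have hK1 : 1 ≤ K := by omega
  have hKr : (1 : ℝ) ≤ K := by exact_mod_cast hK1
  have hGr : (1 : ℝ) ≤ G := by exact_mod_cast hG1
  have hΛr : (1 : ℝ) ≤ (K : ℝ) ^ (2 * κ + 1) := one_le_pow₀ hKr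
  have hlam := lamG_pos hG1 hK1 hΛr
  obtain ⟨-, -, -, hP⟩ := PP_nums H hK1
  have hp : (⟨s, q⟩ : Σ _ : ℕ, ℕ × ℕ × ℕ × ℕ) ∈ PP ty g Q K := by
    unfold PP
    rw [Finset.mem_sigma]
    exact ⟨Finset.mem_range.2 hs, hq⟩
  obtain ⟨-, hv0, hv1, -⟩ := hP _ hp
  simp only at hv0 hv1
  have hv : 0 ≤ sysv (ty (s / Q)).2.1 q := le_trans (by positivity) hv0
  have hw := GG_Wd H c hK1 (a := a) hℓ hst hp
  have hNB := GG_NB H c hK1 hp (hgood.1 s hs)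
  have h1 := sum_sub_M hw hNB hx
  have hPot : Pot (GG τ ty c Q ℓst ⟨s, q⟩) (tm τ Q s ℓ - tm τ Q s ℓst) (R * K) (lamG G K ((K : ℝ) ^ (2 * κ + 1))) a ℓ ≤ 16 ^ K :=
    (Finset.single_le_sum (f := fun p : (Σ _ : ℕ, ℕ × ℕ × ℕ × ℕ) =>
      Pot (GG τ ty c Q ℓst p) (tm τ Q p.1 ℓ - tm τ Q p.1 ℓst) (R * K) (lamG G K ((K : ℝ) ^ (2 * κ + 1))) a ℓ)
      (fun p _ => Pot_nonneg _ _ _ _ _ hℓ) hp).trans hgood.2
  have h2 := M_of_Pot hℓ hlam hPot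
  have h3 := w_Cb_le H (Cst.idx_lt hs) hv1
  have h4 : ((Cb * (3 * m ^ 2) : ℕ) : ℝ) ≤ K := by exact_mod_cast B.hCbK
  simp only at h1
  have i2 : (3 * (K : ℝ) + 1) / lamG G K ((K : ℝ) ^ (2 * κ + 1)) ≤ 32768 * (G * (K : ℝ) ^ (2 * κ + 3)) := by
    rw [div_eq_mul_one_div]
    have i1 : 1 / lamG G K ((K : ℝ) ^ (2 * κ + 1)) = 8192 * G * K * (K : ℝ) ^ (2 * κ + 1) := by unfold lamG; rw [one_div_one_div]
    rw [i1]
    calc (3 * (K : ℝ) + 1) * (8192 * G * K * (K : ℝ) ^ (2 * κ + 1)) ≤ (4 * K) * (8192 * G * K * (K : ℝ) ^ (2 * κ + 1)) := by gcongr; linarith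
      _ = 32768 * (G * (K : ℝ) ^ (2 * κ + 3)) := by ring
  have i3 : ((R * K : ℕ) : ℝ) ≤ (K : ℝ) ^ (2 * κ + 3) := by
    have h5 : R * K ≤ K ^ (2 * κ + 3) := hRL.trans (Nat.pow_le_pow_right hK1 (by omega))
    exact_mod_cast h5
  have i4 : (K : ℝ) ≤ (K : ℝ) ^ (2 * κ + 3) := by
    have h5 : K ≤ K ^ (2 * κ + 3) := Nat.le_self_pow (by omega) K
    exact_mod_cast h5
  have i5 : (K : ℝ) ^ (2 * κ + 3) ≤ G * (K : ℝ) ^ (2 * κ + 3) := le_mul_of_one_le_left (by positivity) hGr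
  have h6 : ∑ j ∈ Finset.range (tm τ Q s ℓ - tm τ Q s ℓst), sysf (ty (s / Q)).2.1 q (Us τ c Q ℓst s j x) =
      (∑ j ∈ Finset.range (tm τ Q s ℓ - tm τ Q s ℓst), GG τ ty c Q ℓst ⟨s, q⟩ j x - M (GG τ ty c Q ℓst ⟨s, q⟩) a ℓ) +
        M (GG τ ty c Q ℓst ⟨s, q⟩) a ℓ := by
    rw [sub_add_cancel]
    rfl
  rw [h6]
  refine (abs_add_le _ _).trans ?_
  have h7 : 33000 * (G : ℝ) * (K : ℝ) ^ (2 * κ + 3) = 33000 * (G * (K : ℝ) ^ (2 * κ + 3)) := by ring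
  rw [h7]
  linarith

end Pool.Agent.Helper46.LD4
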