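import Pool.Agent.Helper41.LD4.Defs
import Pool.Agent.Helper88.LD.WB2

/-!
# Project LD4, block A4: the pending variance
-/

set_option autoImplicit false

namespace Pool.Agent.Helper46.LD4

open Set MeasureTheory Filter Topology
open Pool.Agent.Helper41.LD (av var haar DiscLe Dioph Kk)
open Pool.Agent.Helper41.LD4
open Pool.Agent.Helper88.LD (var_nonneg var_le av_mono av_children)

variable {G : ℕ → ℝ → ℝ} {β w : ℝ} {n : ℕ} {a ℓ : ℝ}

theorem abs_sq_le_one {g : ℝ → ℝ} (h : ∀ x, |g x| ≤ 1) (x : ℝ) : |g x ^ 2| ≤ 1 := by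
  rw [abs_pow]
  exact pow_le_one₀ (abs_nonneg _) (h x)

theorem av_sq_le_one {g : ℝ → ℝ} (hg : Measurable g) (h : ∀ x, |g x| ≤ 1) (a : ℝ) (hℓ : 0 < ℓ) :
    av (fun x => g x ^ 2) a ℓ ≤ 1 := by
  have h1 := av_mono (f := fun x => g x ^ 2) (g := fun _ => 1) (C := 1) (hg.pow_const 2) measurable_const
    (abs_sq_le_one h) (fun x => by norm_num) (fun x => (le_abs_self _).trans (abs_sq_le_one h x)) a hℓ
  refine h1.trans (le_of_eq ?_)
  unfold av
  rw [intervalIntegral.integral_const, smul_eq_mul]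
  field_simp
  ring

theorem W_nonneg (G : ℕ → ℝ → ℝ) (n r : ℕ) (a : ℝ) (hℓ : 0 < ℓ) : 0 ≤ W G n r a ℓ := by
  unfold W
  exact mul_nonneg (Nat.cast_nonneg _) (Finset.sum_nonneg fun j _ => var_nonneg _ _ hℓ)

theorem W_le (hw : Wd G β w n a ℓ) (n' r : ℕ) : W G n' r a ℓ ≤ (r : ℝ) ^ 2 := by
  unfold W
  have h : ∑ j ∈ Finset.Ico (n' - r) n', var (G j) a ℓ ≤ r := by
    refine (Finset.sum_le_card_nsmul _ _ 1 fun j _ =>
      (var_le (hw.meas j) (C := 1) (hw.bdd j) a hw.pos).trans (av_sq_le_one (hw.meas j) (hw.bdd j) a hw.pos)).trans ?_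
    rw [Nat.card_Ico, nsmul_eq_mul, mul_one]
    exact_mod_cast (by omega : n' - (n' - r) ≤ r)
  rw [sq]
  exact mul_le_mul_of_nonneg_left h (Nat.cast_nonneg _)

theorem W_mean (hw : Wd G β w n a ℓ) {r L B : ℕ} (hB : 1 ≤ B) (hr : r ≤ L) :
    ∑ b ∈ Finset.range B, W G (n + L) r (a + b * (ℓ / B)) (ℓ / B) ≤ B * ((r : ℝ) ^ 2 * w) := by
  have hB0 : (0 : ℝ) < B := by exact_mod_cast hB
  have hℓ : 0 < ℓ := hw.pos
  have hℓB : 0 < ℓ / B := by positivity
  have hw0 := hw.w0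
  have h1 : ∀ j ∈ Finset.Ico (n + L - r) (n + L),
      ∑ b ∈ Finset.range B, var (G j) (a + b * (ℓ / B)) (ℓ / B) ≤ B * w := by
    intro j hj
    rw [Finset.mem_Ico] at hj
    refine (Finset.sum_le_sum fun b _ => var_le (hw.meas j) (C := 1) (hw.bdd j) _ hℓB).trans ?_
    rw [av_children (f := fun x => G j x ^ 2) ((hw.meas j).pow_const 2) (C := 1) (abs_sq_le_one (hw.bdd j)) a hℓ hB]
    refine mul_le_mul_of_nonneg_left ?_ hB0.le
    unfold av
    rw [div_le_iff₀ hℓ]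
    have h2 := hw.cov j j (by omega) le_rfl
    rw [Nat.sub_self, pow_zero, mul_one] at h2
    have h3 : ∫ x in a..(a + ℓ), G j x ^ 2 = ∫ x in a..(a + ℓ), G j x * G j x := by
      congr 1
      funext x
      ring
    rw [h3]
    exact (le_abs_self _).trans h2
  unfold W
  rw [← Finset.mul_sum, Finset.sum_comm]
  have h6 : ∑ j ∈ Finset.Ico (n + L - r) (n + L),
      ∑ b ∈ Finset.range B, var (G j) (a + b * (ℓ / B)) (ℓ / B) ≤ r * (B * w) := by
    refine (Finset.sum_le_card_nsmul _ _ _ h1).trans ?_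
    rw [Nat.card_Ico, nsmul_eq_mul]
    refine mul_le_mul_of_nonneg_right ?_ (by positivity)
    exact_mod_cast (by omega : n + L - (n + L - r) ≤ r)
  calc _ ≤ (r : ℝ) * (r * (B * w)) := mul_le_mul_of_nonneg_left h6 (Nat.cast_nonneg _)
    _ = _ := by ring

end Pool.Agent.Helper46.LD4
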