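import Pool.Agent.Helper46.LD4.A4
import Pool.Agent.Helper34.LD.WA

/-!
# Project LD4, block A5: the potential
-/

set_option autoImplicit false

namespace Pool.Agent.Helper46.LD4

open Set MeasureTheory Filter Topology
open Pool.Agent.Helper41.LD (av var haar DiscLe Dioph Kk)
open Pool.Agent.Helper41.LD4
open Pool.Agent.Helper34.LD (inv_lt_one' geo_sum)

variable {G : ℕ → ℝ → ℝ} {β w : ℝ} {n : ℕ} {a ℓ : ℝ}

theorem Pot_nonneg (G : ℕ → ℝ → ℝ) (n r : ℕ) (lam a : ℝ) (hℓ : 0 < ℓ) : 0 ≤ Pot G n r lam a ℓ := by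
  unfold Pot
  have h1 := W_nonneg G n r a hℓ
  have h2 := (Real.cosh_pos (lam * M G a ℓ)).le
  positivity

theorem M_of_Pot {r K : ℕ} {lam : ℝ} (hℓ : 0 < ℓ) (hlam : 0 < lam) (h : Pot G n r lam a ℓ ≤ 16 ^ K) : |M G a ℓ| ≤ (3 * K + 1) / lam := by
  have h1 : Real.cosh (lam * M G a ℓ) ≤ 16 ^ K := by
    refine le_trans ?_ h
    unfold Pot
    have h1 := Real.one_le_cosh (lam * M G a ℓ)
    have h2 : 0 ≤ 4 * lam ^ 2 * W G n r a ℓ := by
      have := W_nonneg G n r a hℓ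
      positivity
    nlinarith
  have h2 : Real.exp |lam * M G a ℓ| ≤ 2 * 16 ^ K := by
    rw [← Real.cosh_abs, Real.cosh_eq] at h1
    have := Real.exp_pos (-|lam * M G a ℓ|)
    linarith
  have h3 : |lam * M G a ℓ| ≤ Real.log (2 * 16 ^ K) := by
    rw [Real.le_log_iff_exp_le (by positivity)]
    exact h2
  have h4 : Real.log (2 * 16 ^ K) ≤ 3 * K + 1 := by
    have e : (2 : ℝ) * 16 ^ K = 2 ^ (4 * K + 1) := by
      rw [pow_succ, pow_mul]; norm_num; ring
    rw [e, Real.log_pow]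
    have h5 := Real.log_two_lt_d9
    have h6 : (0 : ℝ) ≤ K := Nat.cast_nonneg K
    push_cast
    nlinarith
  rw [abs_mul, abs_of_pos hlam] at h3
  rw [le_div_iff₀ hlam, mul_comm]
  linarith

theorem M_le_start (hw : Wd G β w 0 a ℓ) : |M G a ℓ| ≤ w * (β / (β - 1)) := by
  obtain ⟨h0, h1⟩ := inv_lt_one' hw.hβ
  unfold M
  rw [← geo_sum hw.hβ, ← Real.norm_eq_abs]
  refine tsum_of_norm_bounded ((hasSum_geometric_of_lt_one h0.le h1).mul_left w) fun j => ?_
  rw [Real.norm_eq_abs]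
  unfold A av
  rw [abs_div, abs_of_pos hw.pos, div_le_iff₀ hw.pos]
  exact hw.tail j (Nat.zero_le j)

theorem pot_start (hw : Wd G β w 0 a ℓ) {r : ℕ} {lam : ℝ} (h0 : 0 ≤ lam) (h : lam * (w * (β / (β - 1))) ≤ 1 / 2) : Pot G 0 r lam a ℓ ≤ 2 := by
  have h3 := M_le_start hw
  have h4 : |lam * M G a ℓ| ≤ 1 / 2 := by
    rw [abs_mul, abs_of_nonneg h0]
    exact (mul_le_mul_of_nonneg_left h3 h0).trans h
  have h5 : Real.cosh (lam * M G a ℓ) ≤ 2 := by
    rw [← Real.cosh_abs]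
    have h6 := Real.cosh_le_exp_half_sq |lam * M G a ℓ|
    have h7 : |lam * M G a ℓ| ^ 2 / 2 ≤ 1 / 2 := by
      have := abs_nonneg (lam * M G a ℓ)
      nlinarith
    have h8 : Real.exp (1 / 2) ≤ 2 := by
      have h9 : Real.exp (1 / 2) ^ 2 ≤ 2 ^ 2 := by
        rw [← Real.exp_nat_mul]
        norm_num
        have := Real.exp_one_lt_d9
        linarith
      exact le_of_sq_le_sq h9 (by norm_num)
    exact h6.trans ((Real.exp_le_exp.2 h7).trans h8)
  unfold Pot W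
  rw [Nat.zero_sub, Finset.Ico_self, Finset.sum_empty, mul_zero, mul_zero, add_zero, mul_one]
  exact h5

end Pool.Agent.Helper46.LD4
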